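import Pool.Agent.H46.EXC.Stmts

/-!
# EXC, module XAL: all heights
-/

set_option autoImplicit false

namespace Pool.EXC

open Finset Pool.Agent.H98.ABCR Pool.SHA Pool.ABY Pool.VIO

namespace XALP

theorem win (a y b : ℝ) (ha : 1 ≤ a) (hy : a ≤ y) (hb : Real.log y ≤ b) :
    ∃ n : ℕ, 2 ^ n * a ≤ y ∧ y ≤ 2 * (2 ^ n * a) ∧ (n : ℝ) ≤ 2 * b := by
  have ha0 : 0 < a := by linarith
  have h1 : 1 ≤ y / a := (one_le_div ha0).2 hy
  obtain ⟨n, hn1, hn2⟩ := exists_nat_pow_near h1 (one_lt_two : (1 : ℝ) < 2)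
  rw [le_div_iff₀ ha0] at hn1
  rw [div_lt_iff₀ ha0, pow_succ] at hn2
  refine ⟨n, hn1, by linarith, ?_⟩
  have h2 : (2 : ℝ) ^ n ≤ y := by
    refine le_trans ?_ hn1
    have h3 : (0 : ℝ) ≤ 2 ^ n := by positivity
    nlinarith
  have h3 : Real.log ((2 : ℝ) ^ n) ≤ Real.log y := Real.log_le_log (by positivity) h2
  rw [Real.log_pow] at h3
  have h4 := Real.log_two_gt_d9
  have h5 : (0 : ℝ) ≤ n := Nat.cast_nonneg _
  nlinarith

theorem gp_le (v : ℕ × ℕ) (X : ℝ) (h3 : Pool.LH.S_MIN) (hv : IsTri v)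
    (hX : (RR v : ℝ) ≤ X) : ∃ i, (Pool.LH.gp (coord v i) : ℝ) ≤ X ^ (1 / 3 : ℝ) := by
  obtain ⟨i, hi⟩ := h3 v hv
  refine ⟨i, ?_⟩
  have h1 : (0 : ℝ) ≤ Pool.LH.gp (coord v i) := Nat.cast_nonneg _
  have h2 : (Pool.LH.gp (coord v i) : ℝ) =
      ((Pool.LH.gp (coord v i) : ℝ) ^ 3) ^ (1 / 3 : ℝ) := by
    rw [← Real.rpow_natCast, ← Real.rpow_mul h1]
    norm_num
  rw [h2]
  exact Real.rpow_le_rpow (by positivity) (hi.trans hX) (by norm_num)

end XALP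

open XALP in
open Classical in
theorem xal_thm (h1 : S_XDY) (h2 : Pool.LH.S_LCO) (h3 : Pool.LH.S_MIN) : S_XAL := by
  intro ε hε hε1
  obtain ⟨κ0, C0, ε2, hκ, hC0, hε2, hD⟩ := h1 (ε / 2) (by linarith) (by linarith)
  have hδ : 0 < min ε2 (ε / 2) := lt_min hε2 (by linarith)
  obtain ⟨C1, hC1, hL⟩ := h2 (min ε2 (ε / 2)) hδ
  have hAA : 0 ≤ 4 * ε2 / ε := by positivity
  refine ⟨κ0, C1 + C0 * (4 * ε2 / ε + 1), hκ, by nlinarith, ?_⟩
  intro X F hX hF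
  have hX0 : 0 < X := by linarith
  set L : ℝ := Real.log X with hLd
  have hL0 : 0 ≤ L := Real.log_nonneg hX
  set N : ℕ := ⌊2 * (ε2 * L)⌋₊ + 1 with hN
  set a : ℝ := κ0 * (1 + L) with ha
  have ha1 : 1 ≤ a := by
    rw [ha]
    nlinarith
  have hXpos : ∀ s : ℝ, 0 < X ^ s := fun s => Real.rpow_pos_of_pos hX0 s
  have hsplit : F ⊆ F.filter (fun v => X ^ ε2 < hh v) ∪
      (range N).biUnion (fun m => F.filter (fun v =>
        2 ^ m * a ≤ hh v ∧ hh v ≤ 2 * (2 ^ m * a) ∧ hh v ≤ X ^ ε2)) := by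
    intro v hv
    obtain ⟨-, -, hlo⟩ := hF v hv
    rw [Finset.mem_union]
    by_cases hc : X ^ ε2 < hh v
    · left
      exact Finset.mem_filter.2 ⟨hv, hc⟩
    · right
      push Not at hc
      have hp : 0 < hh v := by linarith
      have hlog : Real.log (hh v) ≤ ε2 * L := by
        have := Real.log_le_log hp hc
        rwa [Real.log_rpow hX0] at this
      obtain ⟨n, hn1, hn2, hn3⟩ := win a (hh v) (ε2 * L) ha1 hlo hlog
      rw [Finset.mem_biUnion]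
      refine ⟨n, ?_, Finset.mem_filter.2 ⟨hv, hn1, hn2, hc⟩⟩
      rw [Finset.mem_range, hN, Nat.lt_succ_iff]
      exact Nat.le_floor hn3
  have hhi : ((F.filter (fun v => X ^ ε2 < hh v)).card : ℝ) ≤ C1 * X ^ (1 / 3 + ε) := by
    have hY : 1 ≤ X ^ (1 / 3 : ℝ) := Real.one_le_rpow hX (by norm_num)
    have h4 := hL X (X ^ (1 / 3 : ℝ)) (F.filter (fun v => X ^ ε2 < hh v)) hX hY
      (by
        intro v hv
        rw [Finset.mem_filter] at hv
        obtain ⟨hv1, hv2⟩ := hv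
        obtain ⟨ht, hR, -⟩ := hF v hv1
        refine ⟨ht, hR, gp_le v X h3 ht hR, ?_⟩
        calc (RR v : ℝ) ^ (min ε2 (ε / 2)) ≤ X ^ (min ε2 (ε / 2)) :=
              Real.rpow_le_rpow (Nat.cast_nonneg _) hR hδ.le
          _ ≤ X ^ ε2 := Real.rpow_le_rpow_of_exponent_le hX (min_le_left _ _)
          _ ≤ hh v := hv2.le)
    refine h4.trans ?_
    rw [mul_assoc, ← Real.rpow_add hX0]
    apply mul_le_mul_of_nonneg_left _ (by linarith)
    apply Real.rpow_le_rpow_of_exponent_le hX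
    have := min_le_right ε2 (ε / 2)
    linarith
  have hlo : ∀ m ∈ range N, ((F.filter (fun v =>
        2 ^ m * a ≤ hh v ∧ hh v ≤ 2 * (2 ^ m * a) ∧ hh v ≤ X ^ ε2)).card : ℝ) ≤
        C0 * X ^ (1 / 3 + ε / 2) := by
    intro m _
    set Fm := F.filter (fun v =>
        2 ^ m * a ≤ hh v ∧ hh v ≤ 2 * (2 ^ m * a) ∧ hh v ≤ X ^ ε2) with hFm
    rcases Fm.eq_empty_or_nonempty with he | ⟨w, hw⟩
    · rw [he, Finset.card_empty]
      have := hXpos (1 / 3 + ε / 2)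
      push_cast
      positivity
    · have hw' := hw
      rw [hFm, Finset.mem_filter] at hw'
      obtain ⟨-, hw1, -, hw3⟩ := hw'
      refine hD X (2 ^ m * a) Fm hX ?_ (hw1.trans hw3) ?_
      · have h5 : (1 : ℝ) ≤ 2 ^ m := one_le_pow₀ (by norm_num)
        nlinarith
      · intro v hv
        rw [hFm, Finset.mem_filter] at hv
        obtain ⟨hv0, hv1, hv2, -⟩ := hv
        obtain ⟨ht, hR, -⟩ := hF v hv0
        exact ⟨ht, hR, hv1, hv2⟩
  have hNle : (N : ℝ) ≤ (4 * ε2 / ε + 1) * X ^ (ε / 2) := by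
    have h5 : (N : ℝ) ≤ 2 * (ε2 * L) + 1 := by
      rw [hN]
      push_cast
      have := Nat.floor_le (show 0 ≤ 2 * (ε2 * L) by positivity)
      linarith
    have h6 : L ≤ X ^ (ε / 2) / (ε / 2) := Real.log_le_rpow_div hX0.le (by linarith)
    have h7 : 1 ≤ X ^ (ε / 2) := Real.one_le_rpow hX (by linarith)
    have h8 : 2 * (ε2 * L) ≤ 2 * (ε2 * (X ^ (ε / 2) / (ε / 2))) := by
      apply mul_le_mul_of_nonneg_left _ (by norm_num)
      exact mul_le_mul_of_nonneg_left h6 hε2.le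
    have h9 : 2 * (ε2 * (X ^ (ε / 2) / (ε / 2))) = (4 * ε2 / ε) * X ^ (ε / 2) := by
      field_simp
      ring
    linarith
  have hcard : (F.card : ℝ) ≤ ((F.filter (fun v => X ^ ε2 < hh v)).card : ℝ) +
      ∑ m ∈ range N, ((F.filter (fun v =>
        2 ^ m * a ≤ hh v ∧ hh v ≤ 2 * (2 ^ m * a) ∧ hh v ≤ X ^ ε2)).card : ℝ) := by
    have h5 := (Finset.card_le_card hsplit).trans (Finset.card_union_le _ _)
    have h6 := h5.trans (Nat.add_le_add_left (Finset.card_biUnion_le) _)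
    exact_mod_cast h6
  refine hcard.trans ?_
  have hsum : ∑ m ∈ range N, ((F.filter (fun v =>
        2 ^ m * a ≤ hh v ∧ hh v ≤ 2 * (2 ^ m * a) ∧ hh v ≤ X ^ ε2)).card : ℝ) ≤
      (C0 * (4 * ε2 / ε + 1)) * X ^ (1 / 3 + ε) := by
    refine (Finset.sum_le_sum hlo).trans ?_
    rw [Finset.sum_const, Finset.card_range, nsmul_eq_mul]
    have h5 : X ^ (1 / 3 + ε) = X ^ (ε / 2) * X ^ (1 / 3 + ε / 2) := by
      rw [← Real.rpow_add hX0]
      congr 1
      ring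
    rw [h5]
    have h6 := hXpos (1 / 3 + ε / 2)
    calc (N : ℝ) * (C0 * X ^ (1 / 3 + ε / 2)) ≤
        ((4 * ε2 / ε + 1) * X ^ (ε / 2)) * (C0 * X ^ (1 / 3 + ε / 2)) :=
          mul_le_mul_of_nonneg_right hNle (by positivity)
      _ = _ := by ring
  calc _ ≤ C1 * X ^ (1 / 3 + ε) + (C0 * (4 * ε2 / ε + 1)) * X ^ (1 / 3 + ε) :=
        add_le_add hhi hsum
    _ = _ := by ring

end Pool.EXC
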